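import Mathlib
import Pool.Agent.Helper496.BT.HR3

set_option autoImplicit false

open Finset

namespace Pool.Agent.Results.MP_278fbd_co.DenseDigraphs

/-- `C` is the vertex set of a directed cycle `c 0 → c 1 → ... → c (l + 1) → c 0` (on `l + 2 ≥ 2` distinct
vertices) of the digraph `A` -/
def IsCycle {V : Type} (A : V → V → Prop) (C : Set V) : Prop :=
  ∃ (l : ℕ) (c : Fin (l + 2) → V), Function.Injective c ∧ Set.range c = C ∧ ∀ j, A (c j) (c (j + 1))

/-- there are `k` directed cycles, each meeting the union of the earlier ones in at most one vertex -/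
def NearlyDisjoint {V : Type} (A : V → V → Prop) (k : ℕ) : Prop :=
  ∃ C : Fin k → Set V, (∀ i, IsCycle A (C i)) ∧
    ∀ i, (C i ∩ ⋃ i' : Fin k, ⋃ (_ : i' < i), C i').ncard ≤ 1

open Classical in
theorem result {V : Type} [Fintype V] [Nonempty V] (A : V → V → Prop) (hloop : ∀ v, ¬ A v v)
    (n d : ℕ) (hn : Fintype.card V = n) (hd : 1 ≤ d) (hA : ∀ v, d ≤ #{w | A v w}) :
    ((n - d) * (n - d - 1) + 2 < 4 * d → NearlyDisjoint A d) ∧
    (∀ k : ℕ, n ≤ 2 * d + 1 → 2 * k + n ≤ 3 * d + 1 → NearlyDisjoint A k) ∧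
    (∀ t k : ℕ, t < d → (t = 0 ∨ t * (t - 1) + n * (n - 1) < 2 * n * d) →
      k * (n - t - 1) ^ 2 < (n - t) * (d - t) ^ 2 → NearlyDisjoint A (k + t)) ∧
    (∀ k : ℕ, (k : ℝ) * (4 + Real.log (((n : ℝ) - 1) / d) +
      Real.log (1 + Real.log (((n : ℝ) - 1) / d))) ≤ d → NearlyDisjoint A k) := by
  have h := BT496.hr_final A hloop n d hn hd hA
  exact ⟨BT496.nd_full A hloop n d hn hd hA, h.2.1, h.2.2.1, h.2.2.2⟩

end Pool.Agent.Results.MP_278fbd_co.DenseDigraphs
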